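import Pool.Agent.TH138.LG.Words2

set_option autoImplicit false

/-!
# Lang's conjecture for context-free languages of matrix products

Let `X` be the integral closed subvariety of projective `n`-space over a number field `k` given by
the homogeneous polynomials in the finite set `FF`.  A word `a₁ ⋯ a_m` in the letters of an
alphabet `A` represents the point with homogeneous coordinates `M ρ(a₁) ⋯ ρ(a_m) v`, where the
`ρ(a)` are invertible `r × r` matrices, `M` is a matrix with `n + 1` rows, and `v` a vector, over a
number field `K ⊇ k`.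

(1) If `X` is not uniruled (for instance of general type), then for each `r` there is ONE
hypersurface `G = 0` not containing `X` such that, for all number fields `K ⊇ k`, all finite
alphabets and all `ρ, M, v` as above: if all words of a context-free language represent points of
`X`, then only finitely many of these points are not on `G = 0`.  More precisely these points are
represented by the words of length at most `width ^ (N p ^ (2 [K : ℚ] r ^ 2))` of the language,
where `N` is the number of left-hand sides of rules of the grammar, `width` the largest length of a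
right-hand side of a rule (at least 1), and `p` is any odd prime such that all `ρ(a)` and
`ρ(a)⁻¹` have `p`-integral entries.

(2) If `X` is uniruled, this fails for some `r`, for all `G`.
-/

namespace Pool.Agent.Results.MP_2ae8fe_ag.ContextFreeMatrixProducts

open NumberField MvPolynomial Pool.Agent.H533R3.SL Pool.Agent.TH717.GO Pool.Agent.TH138.LG

theorem result (k : Type) [Field k] [NumberField k] (n : ℕ)
    (FF : Finset (MvPolynomial (Fin (n + 1)) k))
    (hprime : (Ideal.span (FF : Set (MvPolynomial (Fin (n + 1)) k))).IsPrime)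
    (hhom : ∀ F ∈ FF, ∃ e, F.IsHomogeneous e) :
    (¬ Uniruled (Ideal.span (FF : Set (MvPolynomial (Fin (n + 1)) k))) →
      ∀ r : ℕ, ∃ G : MvPolynomial (Fin (n + 1)) k, (∃ e, G.IsHomogeneous e) ∧
        G ∉ Ideal.span (FF : Set (MvPolynomial (Fin (n + 1)) k)) ∧
        ∀ (K : Type) [Field K] [NumberField K] [Algebra k K] (A : Type)
          (M : Matrix (Fin (n + 1)) (Fin r) K) (ρ : A → Matrix.GeneralLinearGroup (Fin r) K)
          (v : Fin r → K) (g : ContextFreeGrammar A), OnX FF M ρ v g.language →
          (Finite A → (wordPts G M ρ v g.language).Finite) ∧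
          ∀ (p : ℕ) (hp : p.Prime), 3 ≤ p → (∀ a, ρ a ∈ GLp hp r) →
            wordPts G M ρ v g.language = wordPts G M ρ v {w | w ∈ g.language ∧ w.length ≤
              width g ^ ((inputs g).card * p ^ (2 * Module.finrank ℚ K * r ^ 2))}) ∧
    (Uniruled (Ideal.span (FF : Set (MvPolynomial (Fin (n + 1)) k))) →
      ∃ r : ℕ, ∀ G : MvPolynomial (Fin (n + 1)) k, (∃ e, G.IsHomogeneous e) →
        G ∉ Ideal.span (FF : Set (MvPolynomial (Fin (n + 1)) k)) →
        ∃ (K : Type) (_ : Field K) (_ : NumberField K) (_ : Algebra k K)
          (M : Matrix (Fin (n + 1)) (Fin r) K) (ρ : Unit → Matrix.GeneralLinearGroup (Fin r) K)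
          (v : Fin r → K) (g : ContextFreeGrammar Unit),
          OnX FF M ρ v g.language ∧ (wordPts G M ρ v g.language).Infinite) := by
  refine ⟨fun hnu r => ?_, converse_words FF⟩
  obtain ⟨G, ⟨e, hG1⟩, hG2, hG3⟩ := orb_main FF hprime hnu hhom (r * r)
  refine ⟨G, ⟨e, hG1⟩, hG2, ?_⟩
  intro K _ _ _ A M ρ v g hX
  have key : ∀ (p : ℕ) (hp : p.Prime), 3 ≤ p → (∀ a, ρ a ∈ GLp hp r) →
      wordPts G M ρ v g.language = wordPts G M ρ v {w | w ∈ g.language ∧ w.length ≤
        width g ^ ((inputs g).card * p ^ (2 * Module.finrank ℚ K * r ^ 2))} := by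
    intro p hp hp3 hρ
    exact words_short (FF : Set (MvPolynomial (Fin (n + 1)) k)) G e hG1 hG3 hp hp3 M ρ hρ v g hX
  refine ⟨fun hA => ?_, key⟩
  obtain ⟨p, hp, hp3, hρ⟩ := exists_prime_letters ρ
  rw [key p hp hp3 hρ]
  exact wordPts_finite G M ρ v _ _

end Pool.Agent.Results.MP_2ae8fe_ag.ContextFreeMatrixProducts
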