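import Mathlib
import Pool.Agent.TH143.DE.Rat

/-!
MP_2ae8fe_ag, Q1: sequences of points, e.g. of rational points, whose homogeneous coordinates
satisfy linear recurrences with varying coefficients.
-/

set_option autoImplicit false

namespace Pool.Agent.Results.MP_2ae8fe_ag.HolonomicPoints

open MvPolynomial Filter
open Pool.Agent.W602.GT Pool.Agent.TH143.GT Pool.Agent.TH143.DE

/-- Let `X` be the projective variety with the homogeneous ideal `p`, of dimension `w`, with the
function field `K` and the generic point `y`, and let `x 0, x 1, ...` be points of `X`, in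
homogeneous coordinates.

(1) Let `t 0, t 1, ...` be an infinite orbit of the polynomial map `ρ`, and let each coordinate of
`x m` satisfy a nontrivial linear recurrence whose coefficients are polynomials in `t m`. If `X` has
dimension at least two and the points `x m` are Zariski-dense in `X`, then `X` is covered by rational
curves and all pluricanonical forms on `X` vanish.

(2) In particular, if `X` is of general type and of dimension at least two, then the points `x m`
are not Zariski-dense if the coordinates are P-recursive (`t m = m`), or if they are q-holonomic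
(`t m = c ^ m`).

(3) More generally, the conclusion of (1) holds if the coordinates satisfy linear recurrences with
coefficients in a shift-invariant algebra of sequences, closed under inversion, of transcendence
degree less than the dimension of `X`. -/
theorem result {n : ℕ} (p : Ideal (MvPolynomial (Fin (n + 1)) ℂ)) (K : Type) [Field K]
    [Algebra ℂ K] (w : ℕ) (y : Fin (n + 1) → K) (hy : FunField p 1 K w y)
    (x : ℕ → Fin (n + 1) → ℂ) (hX : ∀ m, ∀ H ∈ p, eval (x m) H = 0) :
    (2 ≤ w → ∀ (t : ℕ → ℂ) (ρ : Polynomial ℂ), Function.Injective t →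
      (∀ m, t (m + 1) = ρ.eval (t m)) → (∀ j, RecAlong t (fun m => x m j)) → SeqDense p x →
      Covered K ∧ ∀ N, 0 < N → ∀ ω : (Fin w → Derivation ℂ K K) → K,
        Pluricanonical w N ω → ω = 0) ∧
    (2 ≤ w → GeneralType ℂ K w →
      ((∀ j, RecAlong (fun m => (m : ℂ)) (fun m => x m j)) → ¬ SeqDense p x) ∧
      ∀ c : ℂ, c ≠ 0 → (∀ k : ℕ, 0 < k → c ^ k ≠ 1) →
        (∀ j, RecAlong (fun m => c ^ m) (fun m => x m j)) → ¬ SeqDense p x) ∧
    (∀ (B : Subalgebra ℂ (ℕ → ℂ)) (d : ℕ), CoefField B → TrLe B d → d < w →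
      (∀ j, LinRec B (fun m => x m j)) → SeqDense p x →
      Covered K ∧ ∀ N, 0 < N → ∀ ω : (Fin w → Derivation ℂ K K) → K,
        Pluricanonical w N ω → ω = 0) := by
  have hall : ∀ᶠ m in atTop, ∀ H ∈ p, eval (x m) H = 0 := Eventually.of_forall hX
  have hQ : ∀ B : Subalgebra ℂ (ℕ → ℂ), Hyper B 1 x := fun B =>
    ⟨Eventually.of_forall fun m => by rw [map_one]; exact one_ne_zero, 1, B.one_mem,
      Eventually.of_forall fun m => by rw [map_one, map_one, Pi.one_apply, one_mul]⟩
  have key : ∀ (B : Subalgebra ℂ (ℕ → ℂ)) (d : ℕ), CoefField B → TrLe B d → d < w →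
      (∀ j, LinRec B (fun m => x m j)) → SeqDense p x →
      Covered K ∧ ∀ N, 0 < N → ∀ ω : (Fin w → Derivation ℂ K K) → K,
        Pluricanonical w N ω → ω = 0 := by
    intro B d hB hd hw hx hdense
    obtain ⟨r, hr⟩ := main_seq hB hd (isHomogeneous_one _ _) hy hw hx hall (hQ B)
      (hdense.tail hy (by omega))
    exact ⟨covered' hy hr, fun N hN ω hω => sec_zero' hy hr hN hω⟩
  have key2 : 2 ≤ w → ∀ (t : ℕ → ℂ) (ρ : Polynomial ℂ), Function.Injective t →
      (∀ m, t (m + 1) = ρ.eval (t m)) → (∀ j, RecAlong t (fun m => x m j)) → SeqDense p x →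
      Covered K ∧ ∀ N, 0 < N → ∀ ω : (Fin w → Derivation ℂ K K) → K,
        Pluricanonical w N ω → ω = 0 := fun hw t ρ ht hρ hx hdense =>
    key (ratB t ht) 1 (ratB_field ht ρ hρ) (ratB_tr ht) (by omega) (fun j => (hx j).linRec ht)
      hdense
  have key3 : 2 ≤ w → GeneralType ℂ K w → ∀ (t : ℕ → ℂ) (ρ : Polynomial ℂ),
      Function.Injective t → (∀ m, t (m + 1) = ρ.eval (t m)) →
      (∀ j, RecAlong t (fun m => x m j)) → ¬ SeqDense p x := by
    intro hw hgt t ρ ht hρ hx hdense
    obtain ⟨-, N, hN, ω, h1, h2, D, h3, -⟩ := hgt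
    exact h3 (congrFun ((key2 hw t ρ ht hρ hx hdense).2 N hN (ω 0)
      ⟨h1 0, fun P hP => h2 P hP 0⟩) D)
  refine ⟨key2, fun hw hgt => ⟨fun hx => ?_, fun c hc hc1 hx => ?_⟩, key⟩
  · refine key3 hw hgt (fun m => (m : ℂ)) (Polynomial.X + 1) Nat.cast_injective (fun m => ?_) hx
    rw [Polynomial.eval_add, Polynomial.eval_X, Polynomial.eval_one]
    push_cast
    rfl
  · refine key3 hw hgt (fun m => c ^ m) (Polynomial.C c * Polynomial.X) ?_ (fun m => ?_) hx
    · intro a b hab
      change c ^ a = c ^ b at hab
      by_contra hne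
      rcases lt_or_gt_of_ne hne with h | h
      · apply hc1 (b - a) (by omega)
        have h1 : c ^ b = c ^ a * c ^ (b - a) := by rw [← pow_add]; congr 1; omega
        rw [h1] at hab
        have h2 : c ^ a ≠ 0 := pow_ne_zero _ hc
        exact (mul_left_cancel₀ h2 (by rw [mul_one]; exact hab)).symm
      · apply hc1 (a - b) (by omega)
        have h1 : c ^ a = c ^ b * c ^ (a - b) := by rw [← pow_add]; congr 1; omega
        rw [h1] at hab
        have h2 : c ^ b ≠ 0 := pow_ne_zero _ hc
        exact mul_left_cancel₀ h2 (by rw [mul_one]; exact hab)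
    · rw [Polynomial.eval_mul, Polynomial.eval_C, Polynomial.eval_X, pow_succ]
      ring

end Pool.Agent.Results.MP_2ae8fe_ag.HolonomicPoints
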