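import Mathlib
import Pool.Agent.TH717.GO.RecConv

set_option autoImplicit false

/-!
# Rational points which are terms of linear recurrence sequences

Let `X` be the closed subvariety of projective `n`-space over a number field `k` given by the forms
in `FF`, which generate a prime ideal.

(1) Suppose that `X` is not uniruled (for instance of general type, of positive dimension).  For
every `r` there is a proper closed subset `Z = X ∩ {G = 0}` of `X`, defined over `k`, such that for
ALL number fields `K ⊇ k` and ALL linear recurrence sequences of order `r` with values in
`K ^ (n + 1)`,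

  `x (m + r) = c 0 • x m + c 1 • x (m + 1) + ... + c (r - 1) • x (m + r - 1)`,

only finitely many of the points with homogeneous coordinates `x m`, `m = 0, 1, 2, ...`, lie on `X`
outside `Z`.  The sequence is NOT assumed to stay on `X`.

(2) If `X` is uniruled, this fails: for some `r` and for every proper closed subset `G = 0` there
are `K` and a linear recurrence sequence of order `r` over `K`, all of whose terms are on `X`, which
has infinitely many points outside `G = 0`.

Method: by the theorem of Skolem, Mahler and Lech (proved in the starting files over the rational
numbers, and deduced here over number fields) and since the roots of the sequence along a suitable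
residue class generate a torsion-free group, each residue class modulo some `N` has only finitely
many terms on `X` or consists of points of `X`; in the second case the terms are exponential
polynomials in independent variables, which give rational curves with at most `r ^ 2` exponents
through these points; the nonconstant ones among all these curves are contained in a fixed
hypersurface since `X` is not uniruled.
-/

namespace Pool.Agent.Results.MP_2ae8fe_ag.RecurrenceTerms

open NumberField MvPolynomial Pool.Agent.H533R3.SL Pool.Agent.TH717.GO

theorem result (k : Type) [Field k] [NumberField k] (n : ℕ)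
    (FF : Finset (MvPolynomial (Fin (n + 1)) k)) (hhom : ∀ F ∈ FF, ∃ e, F.IsHomogeneous e)
    (hprime : (Ideal.span (FF : Set (MvPolynomial (Fin (n + 1)) k))).IsPrime) :
    (¬ Uniruled (Ideal.span (FF : Set (MvPolynomial (Fin (n + 1)) k))) → ∀ r : ℕ,
      ∃ G : MvPolynomial (Fin (n + 1)) k, (∃ e, G.IsHomogeneous e) ∧
        G ∉ Ideal.span (FF : Set (MvPolynomial (Fin (n + 1)) k)) ∧
        ∀ (K : Type) [Field K] [NumberField K] [Algebra k K] (x : ℕ → Fin (n + 1) → K),
          IsRec r x →
          (seqOff (FF : Set (MvPolynomial (Fin (n + 1)) k)) G x).Finite) ∧
    (Uniruled (Ideal.span (FF : Set (MvPolynomial (Fin (n + 1)) k))) → ∃ r : ℕ,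
      ∀ G : MvPolynomial (Fin (n + 1)) k, (∃ e, G.IsHomogeneous e) →
        G ∉ Ideal.span (FF : Set (MvPolynomial (Fin (n + 1)) k)) →
        ∃ (K : Type) (_ : Field K) (_ : NumberField K) (_ : Algebra k K)
          (x : ℕ → Fin (n + 1) → K), IsRec r x ∧
          (∀ m, ∀ F ∈ FF, aeval (x m) F = 0) ∧
          (seqOff (FF : Set (MvPolynomial (Fin (n + 1)) k)) G x).Infinite) := by
  refine ⟨fun hnu r => ?_, fun hu => converse_rec FF hu⟩
  obtain ⟨G, hG1, hG2, hG3⟩ := hyper_poly FF hprime hnu hhom (r * r)
  refine ⟨G, hG1, hG2, ?_⟩
  intro K _ _ _ x hx
  exact rec_fin FF hhom G K r hG3 x hx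

end Pool.Agent.Results.MP_2ae8fe_ag.RecurrenceTerms
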