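import Mathlib
import Pool.Agent.TH551.SU.Sui
import Pool.Agent.TH551.SU.CS
import Pool.Agent.TH551.SU.WT
import Pool.Agent.TH551.SU.CRV
import Pool.Agent.TH551.SU.Main

/-!
# MP_2ae8fe_ag: rational points that are short sums of S-units, on varieties that are not uniruled

Let `X` be a projective variety over `ℚ` in projective `n`-space which is not uniruled (for
instance a variety of general type), and let `r` be given. There is ONE proper closed subset
`Z = {G = 0}` of `X` such that for every finitely generated group `Γ` of rational numbers (so for
the `S`-units, for every finite set of primes `S`) there is a constant `C` with the following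
property. Let `u 1, …, u r` be elements of `Γ` and `v 1, …, v r` vectors of rational numbers, and
let `x = ∑ u j • v j` be a point of `X` outside `Z`. Then

  `h(x) ≤ C (1 + h(v))`, `h(v)` the height of the vector of all coordinates of all `v j`.

So for vectors `v` of bounded height (in particular for digits in a fixed finite set) there are only
finitely many points of `X(ℚ)` outside `Z` which are sums of at most `r` multiples of the `v j` by
elements of `Γ`; and there are no points outside `Z` if the height of the digits is small compared
with the height of the point.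

The proof uses the `S`-adic subspace theorem in an ultrapower of `ℚ`: germs of `S`-units are
linearly independent over the field of germs of small height, if no quotient of two of them is in
this field.

* `Uniruled I` (from `Pool.Agent.H533R3.SL.Cur`): over some extension field `L` of `ℚ` there is a
  vector `p` of polynomials in one variable over `L`, not constant as a map to projective space,
  whose values are zeros of `I` and for which `p 1` is a generic point of `X` over `ℚ`.
* `Height.logHeight` is the logarithmic height of Mathlib (of a point in projective space).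
-/

set_option autoImplicit false

namespace Pool.Agent.Results.MP_2ae8fe_ag.SUnitSums

open Pool.Agent.H533R3.SL Height

theorem result (n : ℕ) (FF : Finset (MvPolynomial (Fin (n + 1)) ℚ))
    (hhom : ∀ F ∈ FF, ∃ e, F.IsHomogeneous e)
    (hprime : (Ideal.span (FF : Set (MvPolynomial (Fin (n + 1)) ℚ))).IsPrime)
    (hnu : ¬ Uniruled (Ideal.span (FF : Set (MvPolynomial (Fin (n + 1)) ℚ)))) (r : ℕ) :
    ∃ G : MvPolynomial (Fin (n + 1)) ℚ, (∃ e, G.IsHomogeneous e) ∧
      G ∉ Ideal.span (FF : Set (MvPolynomial (Fin (n + 1)) ℚ)) ∧
      ∀ Γ : Subgroup ℚˣ, Γ.FG → ∃ C : ℝ, ∀ (u : Fin r → Γ) (v : Fin r → Fin (n + 1) → ℚ),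
        (∀ F ∈ FF, MvPolynomial.aeval (fun i => ∑ j, ((u j : ℚˣ) : ℚ) * v j i) F = 0) →
        MvPolynomial.aeval (fun i => ∑ j, ((u j : ℚˣ) : ℚ) * v j i) G ≠ 0 →
        logHeight (fun i => ∑ j, ((u j : ℚˣ) : ℚ) * v j i) ≤
          C * (1 + logHeight (fun q : Fin r × Fin (n + 1) => v q.1 q.2)) :=
  Pool.Agent.TH551.SU.Main.main
    (Pool.Agent.TH551.SU.CRV.crv (Pool.Agent.TH551.SU.CS.cs Pool.Agent.TH551.SU.SUI.sui)
      Pool.Agent.TH551.SU.WT.wt) n FF hhom hprime hnu r

end Pool.Agent.Results.MP_2ae8fe_ag.SUnitSums
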